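import Mathlib
import Pool.Agent.Helper15.JD.Av
import Pool.Agent.Helper15.GT.RingH

/-!
# JD, block DECA: decompositions by finite groups
-/

set_option linter.unusedSectionVars false

namespace Pool.Agent.Helper70.JD

open VC _root_.VF Function Polynomial Pool.Agent.Helper21.TO Pool.Agent.Helper15.GT Pool.Agent.Helper15.KP
open Pool.Agent.Helper15.JD
open Pool.Agent.Helper15.JC (iF)

universe u

section fix

variable {k : Type u} [Field k] {F N : Type u} [Field F] [Algebra k F] [Field N] [Algebra k N]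
  {G : Type u} [Group G] (ρ : G →* (N ≃ₐ[k] N)) (H : Subgroup G) [Fintype H] (φ : F →ₐ[k] N)

/-- The polynomial with the roots `ρ η z`. -/
noncomputable def orbPoly (z : N) : N[X] := ∏ η : H, (X - C (ρ (η : G) z))

lemma orbPoly_monic (z : N) : (orbPoly ρ H z).Monic := monic_prod_of_monic _ _ fun _ _ => monic_X_sub_C _

lemma exists_poly (hφ : ∀ z : N, (∀ g ∈ H, ρ g z = z) → z ∈ Set.range φ) (z : N) :
    ∃ p : F[X], p.map (φ : F →+* N) = orbPoly ρ H z := by
  have h1 : orbPoly ρ H z ∈ Polynomial.lifts (φ : F →+* N) := by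
    rw [Polynomial.lifts_iff_coeff_lifts]
    intro n
    obtain ⟨y, hy⟩ := hφ ((orbPoly ρ H z).coeff n) (fun g hg => by
      have h2 : (orbPoly ρ H z).map ((ρ g : N ≃ₐ[k] N) : N →+* N) = orbPoly ρ H z := by
        unfold orbPoly
        rw [Polynomial.map_prod]
        refine Fintype.prod_equiv (Equiv.mulLeft (⟨g, hg⟩ : H)) _ _ fun η => ?_
        rw [Polynomial.map_sub, Polynomial.map_X, Polynomial.map_C]
        congr 2
        change (ρ g) ((ρ (η : G)) z) = (ρ (g * (η : G))) z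
        rw [map_mul]
        rfl
      conv_rhs => rw [← h2]
      rw [Polynomial.coeff_map]
      rfl)
    exact ⟨y, hy⟩
  exact h1

lemma orbPoly_self (z : N) : (orbPoly ρ H z).eval z = 0 := by
  unfold orbPoly
  rw [Polynomial.eval_prod]
  refine Finset.prod_eq_zero (Finset.mem_univ (1 : H)) ?_
  have h1 : (ρ ((1 : H) : G)) z = z := by
    rw [OneMemClass.coe_one, map_one]
    rfl
  rw [h1]
  simp

/-- `N` is algebraic over `F`: every embedding of `F` extends to `N`. -/
theorem exists_ext (hφ : ∀ z : N, (∀ g ∈ H, ρ g z = z) → z ∈ Set.range φ) {A : Type u} [Field A] [Algebra k A]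
    [IsAlgClosed A] (e : F →ₐ[k] A) : ∃ ι : N →ₐ[k] A, ∀ z, ι (φ z) = e z := by
  let _ : Algebra F N := (φ : F →+* N).toAlgebra
  let _ : Algebra F A := (e : F →+* A).toAlgebra
  have : Algebra.IsAlgebraic F N := ⟨fun z => by
    obtain ⟨p, hp⟩ := exists_poly ρ H φ hφ z
    refine ⟨p, ?_, ?_⟩
    · rintro rfl
      rw [Polynomial.map_zero] at hp
      exact (orbPoly_monic ρ H z).ne_zero hp.symm
    · change p.eval₂ (φ : F →+* N) z = 0
      rw [← Polynomial.eval_map, hp]
      exact orbPoly_self ρ H z⟩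
  have : IsScalarTower k F N := IsScalarTower.of_algebraMap_eq fun c => (φ.commutes c).symm
  have : IsScalarTower k F A := IsScalarTower.of_algebraMap_eq fun c => (e.commutes c).symm
  let f : N →ₐ[F] A := IsAlgClosed.lift
  exact ⟨f.restrictScalars k, fun z => f.commutes z⟩

/-- Two extensions of an embedding of `F` to `N` differ by an element of the group. -/
theorem exists_grp [Infinite k] (hφ : ∀ z : N, (∀ g ∈ H, ρ g z = z) → z ∈ Set.range φ) {A : Type u} [Field A]
    [Algebra k A] (α β : N →ₐ[k] A) (h : ∀ z, α (φ z) = β (φ z)) : ∃ η ∈ H, ∀ z, β z = α (ρ η z) := by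
  have h1 : ∀ z, ∃ η : H, β z = α (ρ (η : G) z) := by
    intro z
    obtain ⟨p, hp⟩ := exists_poly ρ H φ hφ z
    have e : (α : N →+* A).comp (φ : F →+* N) = (β : N →+* A).comp (φ : F →+* N) := by
      ext y
      exact h y
    have h2 : ((orbPoly ρ H z).map (α : N →+* A)).eval (β z) = 0 := by
      rw [← hp, Polynomial.map_map, e, ← Polynomial.map_map, hp, Polynomial.eval_map]
      have h3 := Polynomial.hom_eval₂ (orbPoly ρ H z) (RingHom.id N) (β : N →+* A) z
      rw [RingHom.comp_id] at h3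
      change Polynomial.eval₂ (β : N →+* A) ((β : N →+* A) z) (orbPoly ρ H z) = 0
      rw [← h3]
      change β (Polynomial.eval z (orbPoly ρ H z)) = 0
      rw [orbPoly_self, map_zero]
    unfold orbPoly at h2
    rw [Polynomial.map_prod, Polynomial.eval_prod, Finset.prod_eq_zero_iff] at h2
    obtain ⟨η, -, h3⟩ := h2
    refine ⟨η, ?_⟩
    rw [Polynomial.map_sub, Polynomial.map_X, Polynomial.map_C, Polynomial.eval_sub, Polynomial.eval_X,
      Polynomial.eval_C, sub_eq_zero] at h3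
    exact h3
  let V : H → Subspace k N := fun η => LinearMap.ker (β.toLinearMap - (α.comp ((ρ (η : G) : N ≃ₐ[k] N) : N →ₐ[k] N)).toLinearMap)
  obtain ⟨η, hη⟩ := Subspace.exists_eq_top_of_iUnion_eq_univ (p := V) (by
    rw [Set.eq_univ_iff_forall]
    intro z
    obtain ⟨η, hz⟩ := h1 z
    refine Set.mem_iUnion.mpr ⟨η, ?_⟩
    rw [SetLike.mem_coe, LinearMap.mem_ker]
    change β z - α (ρ (η : G) z) = 0
    rw [hz, sub_self])
  refine ⟨η, η.2, fun z => ?_⟩
  have h2 : z ∈ V η := by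
    rw [hη]
    exact Submodule.mem_top
  rw [LinearMap.mem_ker] at h2
  change β z - α (ρ (η : G) z) = 0 at h2
  exact sub_eq_zero.mp h2

end fix

/-- [DECA] -/
theorem vpa_dec (hF : StmtFamA.{u}) {k : Type u} [Field k] [IsAlgClosed k] [CharZero k] {F N : Type u} [Field F]
    [Algebra k F] [Field N] [Algebra k N] {G : Type u} [Group G] [Finite G] (ρ : G →* (N ≃ₐ[k] N)) (H : Subgroup G)
    (φ : F →ₐ[k] N) (hφ : ∀ z : N, z ∈ Set.range φ ↔ ∀ g ∈ H, ρ g z = z) {m : ℕ} (Γ : Fin m → Subgroup G)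
    (hΓ : eG H ∈ Ideal.span (Set.range fun i => eG (Γ i))) (E : Fin m → Type u) [∀ i, Field (E i)]
    [∀ i, Algebra k (E i)] (φE : ∀ i, E i →ₐ[k] N)
    (hφE : ∀ i z, z ∈ Set.range (φE i) ↔ ∀ g ∈ Γ i, ρ g z = z) (p : Fin m → ℕ)
    (h : ∀ i, VPA k (E i) (p i)) : VPA k F (∑ i, p i) := by
  classical
  letI : Fintype G := Fintype.ofFinite G
  letI : ∀ i, Fintype (Γ i) := fun i => Fintype.ofFinite _
  letI : Fintype H := Fintype.ofFinite _
  have : Infinite k := IsAlgClosed.instInfinite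
  obtain ⟨D, d, hD, hd⟩ := exists_coeffH Γ H hΓ
  obtain ⟨ι, hι⟩ := exists_ext ρ H φ (fun z => (hφ z).mpr) (iF k F)
  choose ι' hι' using fun i => exists_ext ρ (Γ i) (φE i) (fun z => (hφE i z).mpr) (iF k (E i))
  choose x hx using fun i (σ : E i →ₐ[k] AlgebraicClosure F) => exists_xt σ
  let τ : ∀ i, H → G → E i →ₐ[k] AlgebraicClosure F := fun i η g =>
    ι.comp (((ρ ((η : G) * g) : N ≃ₐ[k] N) : N →ₐ[k] N).comp (φE i))
  let c : ∀ i, (E i →ₐ[k] AlgebraicClosure F) →₀ ℤ := fun i => ∑ η : H, ∑ g, d i g • Finsupp.single (τ i η g) 1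
  let ψ : ∀ i, Γ i → F →ₐ[k] AlgebraicClosure (E i) := fun i γ =>
    (ι' i).comp (((ρ (γ : G) : N ≃ₐ[k] N) : N →ₐ[k] N).comp φ)
  have hρ : ∀ (g g' : G) (z : N), ρ g (ρ g' z) = ρ (g * g') z := by
    intro g g' z
    rw [map_mul]
    rfl
  refine hF k F m E p h c (fun i e he => ?_) x hx (fun i => Γ i) ψ (fun i e he => ?_) (D * Fintype.card H ^ 2)
    (Nat.mul_pos hD (pow_pos Fintype.card_pos _)) (fun u _ => ⟨fun _ => 0, fun a _ => ?_, fun w => ?_⟩)
  · obtain ⟨η₀, hη₀, h1⟩ := exists_grp ρ H φ (fun z => (hφ z).mpr) ι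
      ((e : AlgebraicClosure F →ₐ[k] AlgebraicClosure F).comp ι) (fun z => by
        change ι (φ z) = e (ι (φ z))
        rw [hι, he])
    change Finsupp.mapDomain _ (∑ η : H, ∑ g, d i g • Finsupp.single (τ i η g) 1) =
      ∑ η : H, ∑ g, d i g • Finsupp.single (τ i η g) 1
    rw [Finsupp.mapDomain_finset_sum]
    refine Fintype.sum_equiv (Equiv.mulLeft (⟨η₀, hη₀⟩ : H)) _ _ fun η => ?_
    rw [Finsupp.mapDomain_finset_sum]
    refine Finset.sum_congr rfl fun g _ => ?_
    rw [Finsupp.mapDomain_smul, Finsupp.mapDomain_single]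
    congr 2
    ext z
    have h2 := h1 (ρ ((η : G) * g) (φE i z))
    change e (ι (ρ ((η : G) * g) (φE i z))) = ι (ρ (η₀ * (η : G) * g) (φE i z))
    change e (ι (ρ ((η : G) * g) (φE i z))) = ι (ρ η₀ (ρ ((η : G) * g) (φE i z))) at h2
    rw [h2, hρ, mul_assoc]
  · obtain ⟨γ₀, hγ₀, h1⟩ := exists_grp ρ (Γ i) (φE i) (fun z => (hφE i z).mpr) (ι' i)
      ((e : AlgebraicClosure (E i) →ₐ[k] AlgebraicClosure (E i)).comp (ι' i)) (fun z => by
        change ι' i (φE i z) = e (ι' i (φE i z))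
        rw [hι', he])
    refine ⟨Equiv.mulLeft (⟨γ₀, hγ₀⟩ : Γ i), fun γ z => ?_⟩
    have h2 := h1 (ρ (γ : G) (φ z))
    change e (ι' i (ρ (γ : G) (φ z))) = ι' i (ρ (γ₀ * (γ : G)) (φ z))
    change e (ι' i (ρ (γ : G) (φ z))) = ι' i (ρ γ₀ (ρ (γ : G) (φ z))) at h2
    rw [h2, hρ]
  · rw [Finsupp.linearCombination_apply]
    simp
  · -- the value at `g`
    let U : G → k := fun g => u (w.comap (ι.comp (((ρ g : N ≃ₐ[k] N) : N →ₐ[k] N).comp φ)))
    have hU : ∀ g, ∀ η ∈ H, U (g * η) = U g := by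
      intro g η hη
      change u _ = u _
      congr 2
      ext z
      change ι (ρ (g * η) (φ z)) = ι (ρ g (φ z))
      rw [← hρ, (hφ (φ z)).mp ⟨z, rfl⟩ η hη]
    have hU1 : U 1 = u (w.comap (iF k F)) := by
      change u _ = u _
      congr 2
      ext z
      change ι (ρ 1 (φ z)) = _
      rw [map_one]
      exact hι z
    -- the inner sum
    have h1 : ∀ i (η : H) (g : G), ∑ s : Γ i, u (w.comap ((x i (τ i η g)).comp (ψ i s))) =
        ∑ γ : Γ i, U ((η : G) * (g * γ)) := by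
      intro i η g
      obtain ⟨γ₁, hγ₁, h2⟩ := exists_grp ρ (Γ i) (φE i) (fun z => (hφE i z).mpr)
        (ι.comp ((ρ ((η : G) * g) : N ≃ₐ[k] N) : N →ₐ[k] N)) ((x i (τ i η g)).comp (ι' i)) (fun z => by
          change ι (ρ ((η : G) * g) (φE i z)) = x i (τ i η g) (ι' i (φE i z))
          rw [hι', hx]
          rfl)
      refine Fintype.sum_equiv (Equiv.mulLeft (⟨γ₁, hγ₁⟩ : Γ i)) _ _ fun γ => ?_
      change u _ = u _
      congr 2
      ext z
      have h3 := h2 (ρ (γ : G) (φ z))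
      change x i (τ i η g) (ι' i (ρ (γ : G) (φ z))) = ι (ρ ((η : G) * (g * (γ₁ * (γ : G)))) (φ z))
      change x i (τ i η g) (ι' i (ρ (γ : G) (φ z))) = ι (ρ ((η : G) * g) (ρ γ₁ (ρ (γ : G) (φ z)))) at h3
      rw [h3, hρ, hρ]
      congr 3
      group
    have h2 : ∀ i, (c i).sum (fun σ n => (n : k) * ∑ s, u (w.comap ((x i σ).comp (ψ i s)))) =
        ∑ η : H, ∑ g, (d i g : k) * ∑ γ : Γ i, U ((η : G) * (g * γ)) := by
      intro i
      have h3 : (c i).sum (fun σ n => (n : k) * ∑ s, u (w.comap ((x i σ).comp (ψ i s)))) =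
          Finsupp.linearCombination ℤ (fun σ => ∑ s, u (w.comap ((x i σ).comp (ψ i s)))) (c i) := by
        rw [Finsupp.linearCombination_apply]
        refine Finsupp.sum_congr fun σ _ => ?_
        rw [zsmul_eq_mul]
      rw [h3]
      change Finsupp.linearCombination ℤ _ (∑ η : H, ∑ g, d i g • Finsupp.single (τ i η g) 1) = _
      rw [map_sum]
      refine Finset.sum_congr rfl fun η _ => ?_
      rw [map_sum]
      refine Finset.sum_congr rfl fun g _ => ?_
      rw [map_smul, Finsupp.linearCombination_single, one_smul, zsmul_eq_mul, h1]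
    have h4 : ∀ η : H, ∑ i, ∑ g, (d i g : k) * ∑ γ : Γ i, U ((η : G) * (g * γ)) =
        (D : k) * ((Fintype.card H : k) * U 1) := by
      intro η
      have h5 := congrArg (Finsupp.linearCombination ℤ (fun g : G => U ((η : G) * g))) hd
      rw [map_sum, map_smul, map_sum] at h5
      have h6 : ∀ i, Finsupp.linearCombination ℤ (fun g : G => U ((η : G) * g))
          (∑ g, d i g • ∑ j : Γ i, Finsupp.single (g * (j : G)) (1 : ℤ)) =
          ∑ g, (d i g : k) * ∑ γ : Γ i, U ((η : G) * (g * γ)) := by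
        intro i
        rw [map_sum]
        refine Finset.sum_congr rfl fun g _ => ?_
        rw [map_smul, map_sum, zsmul_eq_mul]
        congr 1
        refine Finset.sum_congr rfl fun γ _ => ?_
        rw [Finsupp.linearCombination_single, one_smul]
      rw [Finset.sum_congr rfl fun i _ => h6 i] at h5
      rw [h5, zsmul_eq_mul, Int.cast_natCast]
      congr 1
      have h7 : ∀ η' : H, Finsupp.linearCombination ℤ (fun g : G => U ((η : G) * g))
          (Finsupp.single (η' : G) (1 : ℤ)) = U 1 := by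
        intro η'
        rw [Finsupp.linearCombination_single, one_smul]
        have h8 := hU 1 ((η : G) * (η' : G)) (H.mul_mem η.2 η'.2)
        rw [one_mul] at h8
        exact h8
      rw [Finset.sum_congr rfl fun η' _ => h7 η', Finset.sum_const, Finset.card_univ, nsmul_eq_mul]
    rw [Finset.sum_congr rfl fun i _ => h2 i, Finset.sum_comm, Finset.sum_congr rfl fun η _ => h4 η,
      Finset.sum_const, Finset.card_univ, nsmul_eq_mul, hU1]
    push_cast
    ring

end Pool.Agent.Helper70.JD
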